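import Pool.Agent.H17.CU.Univ

/-! # MP_537ea0_ag : injectivity of the Abel-Jacobi map, reduction to explicit cubic hypersurfaces

`ChowTheory k` lists the standard properties of the Chow groups `A X = CH(X)` and of the higher Chow
groups `A1 X = CH(X, 1)`, with rational coefficients, of separated schemes of finite type over `k` (schemes and
morphisms are those of Mathlib) which are used: flat pull-back, push-forward along closed immersions,
disjoint unions, localisation, homotopy invariance. `Stable T` is a family of subspaces `K X` of `A X`, stable under
flat pull-back and push-forward along closed immersions of smooth varieties; the case in question is the kernel of the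
Abel-Jacobi map on the classes with zero cohomology class, for `k` the field of algebraic numbers.

`Jouanolou X` says that `X` is the base of a flat morphism with fibres affine spaces whose source is a smooth affine
variety; by Jouanolou every smooth quasi-projective variety has this property.

For a list `E` of `m` polynomials `f₁, ..., f_m` in `z₁, ..., z_n`, each of them `z_a z_b - z_c`, `z_a + z_b - z_c` with
`a ≠ b`, or `z_a - 1`, the variety `hyp k (cubic ℤ E)` is the hypersurface `s² - s + ∑ xᵢ fᵢ(z) = 0` in the affine
space over `k` with coordinates `s, x₁, ..., x_m, z₁, ..., z_n`. -/

namespace Pool.Agent.H17.Kept.CubicHypersurfaces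

open AlgebraicGeometry CategoryTheory Pool.Agent.H17.CU

/-- Let `k` be an algebraic extension of the field of rational numbers.

(A) For every smooth variety `X` with Jouanolou's property there is `C` such that for every `t` the sum of `2 ^ t`
copies of `K X` embeds into `K W`, where `W` is the hypersurface of a list of `C + t` polynomials.

(B) The following are equivalent: (1) `K X = 0` for every smooth variety `X` with Jouanolou's property;
(2) `K X = 0` for all smooth rational affine hypersurfaces over `k` which are given by a polynomial of degree `3`
with all coefficients `0`, `1` or `-1`; (3) `K W = 0` for the hypersurfaces `W` of the lists `E` which contain some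
polynomial `z_a z_b - z_c`; (4) for every `C` there is `l ≥ C` such that `K W` has rank less than `2 ^ (l - C)` for
the hypersurfaces `W` of all lists of length `l`.

(C) The hypersurfaces of (3) are among those of (2). -/
theorem result (k : Type) [Field k] [CharZero k] [Algebra.IsAlgebraic ℚ k] (T : ChowTheory k)
    (K : Stable T) :
    (∀ X, Sm X → Jouanolou X → ∃ C : ℕ, ∀ t : ℕ, K.Embeds X C t) ∧
    [K.VanishAll, K.VanishSmallCubic, K.VanishEqn, K.RankGap].TFAE ∧
    ∀ (n : ℕ) (E : List (Eqn (Fin n))), HasMul E → SmallCubic k (cubic ℤ E) :=
  ⟨exists_embedding T K, universality T K, fun _ _ hE => hE.smallCubic k⟩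

end Pool.Agent.H17.Kept.CubicHypersurfaces
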